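import Mathlib
import Pool.Agent.W221.NS.Stm

/-!
Project MD (helper221): the mean force.
-/

set_option autoImplicit false

open MeasureTheory Set Metric Filter Topology
open scoped ContDiff

namespace Pool.Agent.W928.MD

open H459R3.NS W221.NS

theorem th_smooth : ContDiff ℝ ∞ th := bmp.contDiff_normed

theorem th_comp : HasCompactSupport th := bmp.hasCompactSupport_normed

theorem th_zero (z : V) (hz : z ∉ closedBall (0 : V) 1) : th z = 0 := by
  have h : z ∉ tsupport th := by
    have h1 : tsupport th = closedBall (0 : V) 1 := bmp.tsupport_normed_eq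
    rw [h1]; exact hz
  exact image_eq_zero_of_notMem_tsupport h

theorem pd_smooth {f : V → ℝ} (hf : ContDiff ℝ ∞ f) (j : Fin 3) : ContDiff ℝ ∞ (pd j f) := by
  have h1 : ContDiff ℝ ∞ (fderiv ℝ f) := hf.fderiv_right (m := ∞) (by simp)
  exact h1.clm_apply contDiff_const

theorem pd_zero {f : V → ℝ} (hf : ∀ z ∉ closedBall (0 : V) 1, f z = 0) (j : Fin 3) (z : V)
    (hz : z ∉ closedBall (0 : V) 1) : pd j f z = 0 := by
  have h1 : f =ᶠ[𝓝 z] fun _ => (0 : ℝ) := by
    have h2 : (closedBall (0 : V) 1)ᶜ ∈ 𝓝 z := isClosed_closedBall.isOpen_compl.mem_nhds hz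
    filter_upwards [h2] with y hy
    exact hf y hy
  unfold pd
  rw [h1.fderiv_eq]
  simp

theorem comp_of_zero {f : V → ℝ} (hf : ∀ z ∉ closedBall (0 : V) 1, f z = 0) :
    HasCompactSupport f :=
  HasCompactSupport.intro (isCompact_closedBall (0 : V) 1) hf

theorem integ {f g : V → ℝ} (hf : Continuous f) (hfz : ∀ z ∉ closedBall (0 : V) 1, f z = 0)
    (hg : Continuous g) : Integrable (fun z => f z * g z) :=
  (hf.mul hg).integrable_of_hasCompactSupport
    (comp_of_zero fun z hz => by simp [hfz z hz])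

theorem ibp {f g : V → ℝ} (hf : ContDiff ℝ ∞ f) (hfz : ∀ z ∉ closedBall (0 : V) 1, f z = 0)
    (hg : ContDiff ℝ ∞ g) (j : Fin 3) :
    ∫ z, f z * pd j g z = -∫ z, pd j f z * g z := by
  have h1 := integ (pd_smooth hf j).continuous (pd_zero hfz j) hg.continuous
  have h2 := integ hf.continuous hfz (pd_smooth hg j).continuous
  have h3 := integ hf.continuous hfz hg.continuous
  exact integral_mul_fderiv_eq_neg_fderiv_mul_of_integrable (v := Pi.single j 1) h1 h2 h3
    (fun x _ => (hf.differentiable (by simp)) x) (fun x _ => (hg.differentiable (by simp)) x)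

/-- the derivative in time of the weighted mean -/
theorem int_deriv {v : ℝ → V → V} {q : ℝ → V → ℝ} (h : Loc v q) {t : ℝ}
    (ht : t ∈ Ioo (-1 : ℝ) 0) (i : Fin 3) :
    Integrable (fun z => th z * deriv (fun s => v s z i) t) ∧
      ∫ z, th z * deriv (fun s => v s z i) t = 0 := by
  obtain ⟨a, ha1, ha2⟩ := exists_between ht.1
  obtain ⟨b, hb1, hb2⟩ := exists_between ht.2
  have hG : ContDiffOn ℝ ∞ (fun z : ℝ × V => v z.1 z.2 i) (Ioo (-1) 0 ×ˢ univ) :=
    (contDiffOn_pi.1 h.smooth_v) i
  have hO : IsOpen (Ioo (-1 : ℝ) 0 ×ˢ (univ : Set V)) := isOpen_Ioo.prod isOpen_univ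
  have hd : ContinuousOn (fun z : ℝ × V =>
      fderiv ℝ (fun z : ℝ × V => v z.1 z.2 i) z (1, 0)) (Ioo (-1) 0 ×ˢ univ) :=
    (hG.continuousOn_fderiv_of_isOpen hO (by simp)).clm_apply continuousOn_const
  have hK : IsCompact (Icc a b ×ˢ closedBall (0 : V) 1) :=
    isCompact_Icc.prod (isCompact_closedBall _ _)
  have hsub : Icc a b ×ˢ closedBall (0 : V) 1 ⊆ Ioo (-1) 0 ×ˢ (univ : Set V) :=
    prod_mono (fun s hs => ⟨ha1.trans_le hs.1, hs.2.trans_lt hb2⟩) (subset_univ _)
  obtain ⟨C, hC⟩ := hK.exists_bound_of_continuousOn (hd.mono hsub)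
  have hslice : ∀ s ∈ Ioo (-1 : ℝ) 0, Continuous (fun x => v s x i) := fun s hs => by
    have := hG.continuousOn.comp_continuous (f := fun x : V => ((s, x) : ℝ × V)) (by fun_prop)
      (fun x => ⟨hs, mem_univ _⟩)
    exact this
  have hder : ∀ s ∈ Ioo (-1 : ℝ) 0, ∀ x : V, HasDerivAt (fun s => v s x i)
      (fderiv ℝ (fun z : ℝ × V => v z.1 z.2 i) (s, x) (1, 0)) s := by
    intro s hs x
    have hmem : Ioo (-1 : ℝ) 0 ×ˢ (univ : Set V) ∈ 𝓝 (s, x) :=
      prod_mem_nhds (Ioo_mem_nhds hs.1 hs.2) Filter.univ_mem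
    have h1 : DifferentiableAt ℝ (fun z : ℝ × V => v z.1 z.2 i) (s, x) :=
      (hG.contDiffAt hmem).differentiableAt (by simp)
    have h2 : HasDerivAt (fun s : ℝ => ((s, x) : ℝ × V)) (1, 0) s :=
      (hasDerivAt_id s).prodMk (hasDerivAt_const s x)
    exact h1.hasFDerivAt.comp_hasDerivAt s h2
  have hnh : Icc a b ∈ 𝓝 t := Icc_mem_nhds ha2 hb1
  have hcont : Continuous (fun x : V =>
      fderiv ℝ (fun z : ℝ × V => v z.1 z.2 i) (t, x) (1, 0)) :=
    hd.comp_continuous (f := fun x : V => ((t, x) : ℝ × V)) (by fun_prop)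
      (fun x => ⟨ht, mem_univ _⟩)
  have hthi : Integrable (fun z => |th z| * C) :=
    (th_smooth.continuous.integrable_of_hasCompactSupport th_comp).abs.mul_const C
  have key := hasDerivAt_integral_of_dominated_loc_of_deriv_le (s := Icc a b)
    (F := fun s x => th x * v s x i) (F' := fun s x =>
      th x * fderiv ℝ (fun z : ℝ × V => v z.1 z.2 i) (s, x) (1, 0)) (x₀ := t)
    (bound := fun z => |th z| * C) (μ := (volume : Measure V)) hnh ?_ ?_ ?_ ?_ hthi ?_
  · have e : (fun x => th x * deriv (fun s => v s x i) t)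
        = fun x => th x * fderiv ℝ (fun z : ℝ × V => v z.1 z.2 i) (t, x) (1, 0) := by
      funext x
      rw [(hder t ht x).deriv]
    rw [e]
    refine ⟨key.1, ?_⟩
    have h0 : (fun s => ∫ x, th x * v s x i) =ᶠ[𝓝 t] fun _ => (0 : ℝ) := by
      filter_upwards [Ioo_mem_nhds ht.1 ht.2] with s hs
      exact h.mean s hs i
    have h1 : HasDerivAt (fun s => ∫ x, th x * v s x i) 0 t :=
      (hasDerivAt_const t (0 : ℝ)).congr_of_eventuallyEq h0
    exact key.2.unique h1
  · filter_upwards [Ioo_mem_nhds ht.1 ht.2] with s hs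
    exact (th_smooth.continuous.mul (hslice s hs)).aestronglyMeasurable
  · exact integ th_smooth.continuous th_zero (hslice t ht)
  · exact (th_smooth.continuous.mul hcont).aestronglyMeasurable
  · refine Filter.Eventually.of_forall fun x s hs => ?_
    rw [Real.norm_eq_abs, abs_mul]
    by_cases hx : x ∈ closedBall (0 : V) 1
    · exact mul_le_mul_of_nonneg_left (hC (s, x) ⟨hs, hx⟩) (abs_nonneg _)
    · rw [th_zero x hx]; simp
  · refine Filter.Eventually.of_forall fun x s hs => ?_
    exact (hder s ⟨ha1.trans_le hs.1, hs.2.trans_lt hb2⟩ x).const_mul (th x)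

theorem iob {f : V → ℝ} (hf : Continuous f) : IntegrableOn f (ball (0 : V) 2) :=
  (hf.continuousOn.integrableOn_compact (isCompact_closedBall (0 : V) 2)).mono_set
    ball_subset_closedBall

theorem nsq_cont {w : V → V} (hw : Continuous w) : Continuous (nsq w) := by
  unfold nsq
  fun_prop

theorem sq_le_nsq (w : V → V) (z : V) (i : Fin 3) : w z i ^ 2 ≤ nsq w z := by
  unfold nsq
  exact Finset.single_le_sum (f := fun i => w z i ^ 2) (fun k _ => sq_nonneg _) (Finset.mem_univ i)

theorem A2_nonneg (w : V → V) (a : V) (ρ : ℝ) : 0 ≤ A2 a ρ w := by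
  unfold A2
  refine integral_nonneg fun z => ?_
  unfold nsq
  positivity

theorem to_ball {f g : V → ℝ} (hfz : ∀ z ∉ closedBall (0 : V) 1, f z = 0) :
    ∫ z, f z * g z = ∫ z in ball (0 : V) 2, f z * g z := by
  symm
  refine setIntegral_eq_integral_of_forall_compl_eq_zero fun z hz => ?_
  rw [hfz z, zero_mul]
  intro h
  exact hz (closedBall_subset_ball (by norm_num) h)

theorem bound2 {f : V → ℝ} {M : ℝ} (hf : Continuous f) (hM : ∀ z, |f z| ≤ M)
    (hfz : ∀ z ∉ closedBall (0 : V) 1, f z = 0) {w : V → V} (hw : Continuous w) (i j : Fin 3) :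
    |∫ z, f z * (w z j * w z i)| ≤ M * A2 0 2 w := by
  rw [to_ball hfz]
  have h1 : |∫ z in ball (0 : V) 2, f z * (w z j * w z i)| ≤
      ∫ z in ball (0 : V) 2, |f z * (w z j * w z i)| := abs_integral_le_integral_abs
  refine h1.trans ?_
  unfold A2
  rw [← integral_const_mul]
  have hw1 : ∀ k : Fin 3, Continuous fun z => w z k := fun k => (continuous_apply k).comp hw
  refine setIntegral_mono_on (iob (hf.mul ((hw1 j).mul (hw1 i))).abs)
    (iob (continuous_const.mul (nsq_cont hw))) measurableSet_ball fun z _ => ?_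
  have hM0 : 0 ≤ M := (abs_nonneg _).trans (hM z)
  have h2 : |w z j * w z i| ≤ nsq w z := by
    rw [abs_le]
    have h3 := sq_le_nsq w z i
    have h4 := sq_le_nsq w z j
    constructor <;> nlinarith [sq_nonneg (w z j + w z i), sq_nonneg (w z j - w z i)]
  rw [abs_mul]
  exact mul_le_mul (hM z) h2 (abs_nonneg _) hM0

theorem le_sqrt_of {S A : ℝ} (hA : 0 ≤ A) (h : ∀ l : ℝ, 0 < l → S ≤ l * A / 2 + 32 / l) :
    S ≤ 8 * √A := by
  rcases hA.eq_or_lt with rfl | hA
  · rw [Real.sqrt_zero, mul_zero]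
    by_contra hS
    push Not at hS
    have := h (64 / S) (by positivity)
    rw [mul_zero, zero_div, zero_add, div_div_eq_mul_div] at this
    linarith
  · have hs : 0 < √A := Real.sqrt_pos.2 hA
    have := h (8 / √A) (by positivity)
    have e : 8 / √A * A / 2 + 32 / (8 / √A) = 8 * √A := by
      have h2 : A = √A * √A := (Real.mul_self_sqrt hA.le).symm
      field_simp
      nlinarith
    rwa [e] at this

theorem bound1 {f : V → ℝ} {M : ℝ} (hf : Continuous f) (hM : ∀ z, |f z| ≤ M)
    (hfz : ∀ z ∉ closedBall (0 : V) 1, f z = 0) {w : V → V} (hw : Continuous w) (i : Fin 3) :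
    |∫ z, f z * w z i| ≤ M * (8 * √(A2 0 2 w)) := by
  have hM0 : 0 ≤ M := (abs_nonneg _).trans (hM 0)
  have hw1 : ∀ k : Fin 3, Continuous fun z => w z k := fun k => (continuous_apply k).comp hw
  have hS : ∫ z in ball (0 : V) 2, |w z i| ≤ 8 * √(A2 0 2 w) := by
    refine le_sqrt_of (A2_nonneg w 0 2) fun l hl => ?_
    have h2 : ∫ z in ball (0 : V) 2, |w z i| ≤
        ∫ z in ball (0 : V) 2, (l / 2 * nsq w z + 1 / (2 * l)) := by
      refine setIntegral_mono_on (iob (hw1 i).abs)
        (iob ((continuous_const.mul (nsq_cont hw)).add continuous_const)) measurableSet_ball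
        fun z _ => ?_
      have h3 := sq_le_nsq w z i
      have h4 : |w z i| ≤ l / 2 * w z i ^ 2 + 1 / (2 * l) := by
        have h5 : 0 ≤ (l * |w z i| - 1) ^ 2 / (2 * l) := by positivity
        have h6 : (l * |w z i| - 1) ^ 2 / (2 * l) =
            l / 2 * w z i ^ 2 + 1 / (2 * l) - |w z i| := by
          have h7 : |w z i| ^ 2 = w z i ^ 2 := sq_abs _
          field_simp
          nlinarith
        linarith
      have h5 : l / 2 * w z i ^ 2 ≤ l / 2 * nsq w z :=
        mul_le_mul_of_nonneg_left h3 (by positivity)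
      linarith
    refine h2.trans (le_of_eq ?_)
    have i1 : IntegrableOn (fun z => l / 2 * nsq w z) (ball (0 : V) 2) :=
      iob (continuous_const.mul (nsq_cont hw))
    have i2 : IntegrableOn (fun _ : V => 1 / (2 * l)) (ball (0 : V) 2) := iob continuous_const
    rw [integral_add i1 i2, integral_const_mul, setIntegral_const]
    have hv : volume.real (ball (0 : V) 2) = 64 := by
      rw [Measure.real, Real.volume_pi_ball _ (by norm_num : (0 : ℝ) < 2),
        ENNReal.toReal_ofReal (by positivity)]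
      norm_num
    rw [hv, smul_eq_mul]
    unfold A2
    field_simp
    ring
  rw [to_ball hfz]
  have h1 : |∫ z in ball (0 : V) 2, f z * w z i| ≤
      ∫ z in ball (0 : V) 2, |f z * w z i| := abs_integral_le_integral_abs
  refine h1.trans ?_
  have h2 : ∫ z in ball (0 : V) 2, |f z * w z i| ≤ ∫ z in ball (0 : V) 2, M * |w z i| := by
    refine setIntegral_mono_on (iob (hf.mul (hw1 i)).abs)
      (iob (continuous_const.mul (hw1 i).abs)) measurableSet_ball fun z _ => ?_
    rw [abs_mul]
    exact mul_le_mul_of_nonneg_right (hM z) (abs_nonneg _)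
  rw [integral_const_mul] at h2
  exact h2.trans (mul_le_mul_of_nonneg_left hS hM0)

theorem exists_M : ∃ M : ℝ, 0 ≤ M ∧ (∀ j z, |pd j th z| ≤ M) ∧ ∀ j z, |pd j (pd j th) z| ≤ M := by
  have h1 : ∀ j : Fin 3, ∃ M : ℝ, ∀ z, |pd j th z| ≤ M := fun j => by
    obtain ⟨M, hM⟩ := (pd_smooth th_smooth j).continuous.bounded_above_of_compact_support
      (comp_of_zero (pd_zero th_zero j))
    exact ⟨M, fun z => hM z⟩
  have h2 : ∀ j : Fin 3, ∃ M : ℝ, ∀ z, |pd j (pd j th) z| ≤ M := fun j => by
    obtain ⟨M, hM⟩ := (pd_smooth (pd_smooth th_smooth j) j).continuous.bounded_above_of_compact_support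
      (comp_of_zero (pd_zero (pd_zero th_zero j) j))
    exact ⟨M, fun z => hM z⟩
  choose M1 hM1 using h1
  choose M2 hM2 using h2
  have h10 : ∀ j, 0 ≤ M1 j := fun j => (abs_nonneg _).trans (hM1 j 0)
  have h20 : ∀ j, 0 ≤ M2 j := fun j => (abs_nonneg _).trans (hM2 j 0)
  refine ⟨∑ j, (M1 j + M2 j), Finset.sum_nonneg fun j _ => add_nonneg (h10 j) (h20 j), ?_, ?_⟩
  · intro j z
    refine (hM1 j z).trans (le_trans ?_ (Finset.single_le_sum
      (f := fun j => M1 j + M2 j) (fun k _ => add_nonneg (h10 k) (h20 k)) (Finset.mem_univ j)))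
    linarith [h20 j]
  · intro j z
    refine (hM2 j z).trans (le_trans ?_ (Finset.single_le_sum
      (f := fun j => M1 j + M2 j) (fun k _ => add_nonneg (h10 k) (h20 k)) (Finset.mem_univ j)))
    linarith [h10 j]

theorem force_eq {v : ℝ → V → V} {q : ℝ → V → ℝ} (h : Loc v q) {t : ℝ}
    (ht : t ∈ Ioo (-1 : ℝ) 0) (i : Fin 3) (hw : ContDiff ℝ ∞ (v t)) :
    ∫ z, th z * pd i (q t) z = (∑ j, ∫ z, pd j (pd j th) z * v t z i) +
      ∑ j, ∫ z, pd j th z * (v t z j * v t z i) := by
  have hwi : ∀ k : Fin 3, ContDiff ℝ ∞ (fun y => v t y k) := fun k => contDiff_pi.1 hw k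
  have hpt : ∀ z, th z * pd i (q t) z =
      ∑ j, th z * pd j (pd j (fun y => v t y i)) z -
        ∑ j, th z * pd j (fun y => v t y j * v t y i) z -
          th z * deriv (fun s => v s z i) t := by
    intro z
    have h1 := h.momentum t ht z i
    have h2 := h.divfree t ht z
    have h3 : ∀ j : Fin 3, pd j (fun y => v t y j * v t y i) z =
        v t z j * pd j (fun y => v t y i) z + pd j (fun y => v t y j) z * v t z i := by
      intro j
      unfold pd
      rw [fderiv_fun_mul ((hwi j).differentiable (by simp) z) ((hwi i).differentiable (by simp) z)]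
      simp only [add_apply, smul_apply, smul_eq_mul]
      ring
    have h4 : ∑ j, pd j (fun y => v t y j * v t y i) z =
        ∑ j, v t z j * pd j (fun y => v t y i) z := by
      rw [Finset.sum_congr rfl (fun j _ => h3 j), Finset.sum_add_distrib, ← Finset.sum_mul, h2,
        zero_mul, add_zero]
    rw [← Finset.mul_sum, ← Finset.mul_sum, h4]
    have h5 : pd i (q t) z = ∑ j, pd j (pd j (fun y => v t y i)) z -
        ∑ j, v t z j * pd j (fun y => v t y i) z - deriv (fun s => v s z i) t := by linarith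
    rw [h5]
    ring
  have hI1 : ∀ j : Fin 3, Integrable (fun z => th z * pd j (pd j (fun y => v t y i)) z) :=
    fun j => integ th_smooth.continuous th_zero (pd_smooth (pd_smooth (hwi i) j) j).continuous
  have hI2 : ∀ j : Fin 3, Integrable (fun z => th z * pd j (fun y => v t y j * v t y i) z) :=
    fun j => integ th_smooth.continuous th_zero (pd_smooth ((hwi j).mul (hwi i)) j).continuous
  have hI3 := int_deriv h ht i
  calc ∫ z, th z * pd i (q t) z = ∫ z, (∑ j, th z * pd j (pd j (fun y => v t y i)) z -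
        ∑ j, th z * pd j (fun y => v t y j * v t y i) z -
          th z * deriv (fun s => v s z i) t) := by
        congr 1; funext z; exact hpt z
    _ = (∑ j, ∫ z, th z * pd j (pd j (fun y => v t y i)) z) -
        ∑ j, ∫ z, th z * pd j (fun y => v t y j * v t y i) z := by
        have j1 : Integrable (fun z => ∑ j, th z * pd j (pd j (fun y => v t y i)) z) :=
          integrable_finsetSum _ fun j _ => hI1 j
        have j2 : Integrable (fun z => ∑ j, th z * pd j (fun y => v t y j * v t y i) z) :=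
          integrable_finsetSum _ fun j _ => hI2 j
        have j3 : Integrable (fun z => ∑ j, th z * pd j (pd j (fun y => v t y i)) z -
          ∑ j, th z * pd j (fun y => v t y j * v t y i) z) := j1.sub j2
        rw [integral_sub j3 hI3.1, integral_sub j1 j2, hI3.2, sub_zero,
          integral_finsetSum _ (fun j _ => hI1 j), integral_finsetSum _ (fun j _ => hI2 j)]
    _ = _ := by
        rw [sub_eq_add_neg, ← Finset.sum_neg_distrib]
        congr 1
        · refine Finset.sum_congr rfl fun j _ => ?_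
          rw [ibp th_smooth th_zero (pd_smooth (hwi i) j) j,
            ibp (pd_smooth th_smooth j) (pd_zero th_zero j) (hwi i) j, neg_neg]
        · refine Finset.sum_congr rfl fun j _ => ?_
          rw [ibp th_smooth th_zero ((hwi j).mul (hwi i)) j, neg_neg]

theorem t_FORCE (h : S_POINC) : S_FORCE := by
  obtain ⟨C, hC, hP⟩ := h
  obtain ⟨M, hM0, hM1, hM2⟩ := exists_M
  refine ⟨24 * M * √C + 3 * M * C + 1, by positivity, ?_⟩
  intro v q hL t ht i
  have hw : ContDiff ℝ ∞ (v t) := by
    rw [contDiff_iff_contDiffAt]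
    intro x
    have hmem : Ioo (-1 : ℝ) 0 ×ˢ (univ : Set V) ∈ 𝓝 (t, x) :=
      prod_mem_nhds (Ioo_mem_nhds ht.1 ht.2) Filter.univ_mem
    have h1 : ContDiffAt ℝ ∞ (fun z : ℝ × V => v z.1 z.2) (t, x) := hL.smooth_v.contDiffAt hmem
    have h2 : ContDiffAt ℝ ∞ (fun y : V => ((t, y) : ℝ × V)) x :=
      (contDiff_const.prodMk contDiff_id).contDiffAt
    exact h1.comp x h2
  have hA := hP (v t) hw (hL.mean t ht)
  have hA0 := A2_nonneg (v t) 0 2
  have hB0 : 0 ≤ B2 0 2 (v t) := by
    by_contra hcon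
    push Not at hcon
    nlinarith
  set A := A2 0 2 (v t) with hAdef
  set B := B2 0 2 (v t) with hBdef
  rw [force_eq hL ht i hw]
  have hb1 : |∑ j, ∫ z, pd j (pd j th) z * v t z i| ≤ ∑ _j : Fin 3, M * (8 * √A) :=
    (Finset.abs_sum_le_sum_abs _ _).trans (Finset.sum_le_sum fun j _ =>
      bound1 (pd_smooth (pd_smooth th_smooth j) j).continuous (hM2 j)
        (pd_zero (pd_zero th_zero j) j) hw.continuous i)
  have hb2 : |∑ j, ∫ z, pd j th z * (v t z j * v t z i)| ≤ ∑ _j : Fin 3, M * A :=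
    (Finset.abs_sum_le_sum_abs _ _).trans (Finset.sum_le_sum fun j _ =>
      bound2 (pd_smooth th_smooth j).continuous (hM1 j) (pd_zero th_zero j) hw.continuous i j)
  rw [Finset.sum_const, Finset.card_univ, Fintype.card_fin, nsmul_eq_mul] at hb1 hb2
  push_cast at hb1 hb2
  have hs : √A ≤ √C * √B := by
    rw [← Real.sqrt_mul hC.le]
    exact Real.sqrt_le_sqrt hA
  have hsB : 0 ≤ √B := Real.sqrt_nonneg _
  have hsC : 0 ≤ √C := Real.sqrt_nonneg _
  calc |(∑ j, ∫ z, pd j (pd j th) z * v t z i) + ∑ j, ∫ z, pd j th z * (v t z j * v t z i)|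
      ≤ 3 * (M * (8 * √A)) + 3 * (M * A) := (abs_add_le _ _).trans (add_le_add hb1 hb2)
    _ ≤ 3 * (M * (8 * (√C * √B))) + 3 * (M * (C * B)) := by gcongr
    _ ≤ (24 * M * √C + 3 * M * C + 1) * (√B + B) := by
        have e1 : 0 ≤ 24 * M * √C * B := by positivity
        have e2 : 0 ≤ 3 * M * C * √B := by positivity
        nlinarith

end Pool.Agent.W928.MD
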